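import Pool.Agent.Helper98.DISC.GoalsB

open MeasureTheory Set Filter Topology

noncomputable section

namespace Pool.Agent.Helper68.DISC.ANA

open Pool.Agent.Helper98.DISC

theorem hm_eq (m : ℕ) (φ : ℝ) : hm m φ = (4 : ℝ)⁻¹ ^ m * Real.sin φ * (Fm m φ).re := by
  unfold hm fm
  by_cases h : Real.sin φ = 0
  · rw [h]; simp
  · have e : (2 * Real.sin φ) ^ (2 * m) = 4 ^ m * Real.sin φ ^ (2 * m) := by
      rw [mul_pow, pow_mul]; norm_num
    rw [e, inv_pow, pow_succ]
    field_simp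

theorem hm_cont (h0 : S_ODE) (m : ℕ) : Continuous (hm m) := by
  have e : hm m = fun φ => (4 : ℝ)⁻¹ ^ m * Real.sin φ * (Fm m φ).re := funext (hm_eq m)
  rw [e]
  exact (continuous_const.mul Real.continuous_sin).mul
    (Complex.continuous_re.comp (h0.2.1 m).continuous)

theorem fm_nonneg (h : S_FN) (m : ℕ) {φ : ℝ} (hφ : φ ∈ Ioo (0 : ℝ) Real.pi) : 0 ≤ fm m φ := by
  unfold fm
  exact div_nonneg (h.1 m φ hφ).2 (pow_nonneg (mul_nonneg (by norm_num)
    (Real.sin_pos_of_mem_Ioo hφ).le) _)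

theorem hm_nonneg (h : S_FN) (m : ℕ) {φ : ℝ} (hφ : φ ∈ Ioo (0 : ℝ) Real.pi) : 0 ≤ hm m φ := by
  unfold hm
  exact mul_nonneg (pow_nonneg (Real.sin_pos_of_mem_Ioo hφ).le _) (fm_nonneg h m hφ)

/-- change of variables -/
theorem cov (φ : ℝ) (G : ℝ × ℝ → ENNReal) (hG : Measurable G) :
    ∫⁻ α in Ioo (0 : ℝ) φ, ∫⁻ ψ in Ioo (0 : ℝ) (φ - α), G (α, ψ) =
      ∫⁻ θ in Ioo (0 : ℝ) φ, ∫⁻ τ in Ioo (0 : ℝ) θ, G (θ - τ, τ) := by
  set T : Set (ℝ × ℝ) := {x | 0 < x.1 ∧ 0 < x.2 ∧ x.1 + x.2 < φ} with hT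
  have hTm : MeasurableSet T := by
    refine (measurableSet_lt measurable_const measurable_fst).inter
      ((measurableSet_lt measurable_const measurable_snd).inter
        (measurableSet_lt (measurable_fst.add measurable_snd) measurable_const))
  set F : ℝ × ℝ → ENNReal := T.indicator G with hF
  have hFm : Measurable F := hG.indicator hTm
  have s1 : ∫⁻ α in Ioo (0 : ℝ) φ, ∫⁻ ψ in Ioo (0 : ℝ) (φ - α), G (α, ψ) = ∫⁻ α, ∫⁻ ψ, F (α, ψ) := by
    rw [← lintegral_indicator measurableSet_Ioo]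
    refine lintegral_congr fun α => ?_
    by_cases hα : α ∈ Ioo (0 : ℝ) φ
    · rw [indicator_of_mem hα, ← lintegral_indicator measurableSet_Ioo]
      refine lintegral_congr fun ψ => ?_
      by_cases hψ : ψ ∈ Ioo (0 : ℝ) (φ - α)
      · rw [indicator_of_mem hψ, hF, indicator_of_mem]
        exact ⟨hα.1, hψ.1, by have := hψ.2; simp only; linarith⟩
      · rw [indicator_of_notMem hψ, hF, indicator_of_notMem]
        intro hc
        exact hψ ⟨hc.2.1, by have := hc.2.2; simp only at this; linarith⟩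
    · rw [indicator_of_notMem hα]
      symm
      have : ∀ ψ, F (α, ψ) = 0 := by
        intro ψ
        rw [hF, indicator_of_notMem]
        intro hc
        have h1 := hc.1; have h2 := hc.2.1; have h3 := hc.2.2
        simp only at h1 h2 h3
        exact hα ⟨h1, by linarith⟩
      simp [this]
  have s2 : ∫⁻ α, ∫⁻ ψ, F (α, ψ) = ∫⁻ ψ, ∫⁻ α, F (α, ψ) :=
    lintegral_lintegral_swap (f := fun α ψ => F (α, ψ)) hFm.aemeasurable
  have s3 : ∫⁻ ψ, ∫⁻ α, F (α, ψ) = ∫⁻ ψ, ∫⁻ θ, F (θ - ψ, ψ) := by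
    refine lintegral_congr fun ψ => ?_
    exact (lintegral_sub_right_eq_self (fun α => F (α, ψ)) ψ).symm
  have s4 : ∫⁻ ψ, ∫⁻ θ, F (θ - ψ, ψ) = ∫⁻ θ, ∫⁻ ψ, F (θ - ψ, ψ) := by
    refine lintegral_lintegral_swap (f := fun ψ θ => F (θ - ψ, ψ)) ?_
    refine (hFm.comp ?_).aemeasurable
    exact (measurable_snd.sub measurable_fst).prodMk measurable_fst
  have s5 : ∫⁻ θ, ∫⁻ ψ, F (θ - ψ, ψ) = ∫⁻ θ in Ioo (0 : ℝ) φ, ∫⁻ τ in Ioo (0 : ℝ) θ, G (θ - τ, τ) := by
    symm
    rw [← lintegral_indicator measurableSet_Ioo]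
    refine lintegral_congr fun θ => ?_
    by_cases hθ : θ ∈ Ioo (0 : ℝ) φ
    · rw [indicator_of_mem hθ, ← lintegral_indicator measurableSet_Ioo]
      refine lintegral_congr fun ψ => ?_
      by_cases hψ : ψ ∈ Ioo (0 : ℝ) θ
      · rw [indicator_of_mem hψ, hF, indicator_of_mem]
        refine ⟨?_, hψ.1, ?_⟩
        · have := hψ.2; simp only; linarith
        · have := hθ.2; simp only; linarith
      · rw [indicator_of_notMem hψ, hF, indicator_of_notMem]
        intro hc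
        exact hψ ⟨hc.2.1, by have := hc.1; simp only at this; linarith⟩
    · rw [indicator_of_notMem hθ]
      symm
      have : ∀ ψ, F (θ - ψ, ψ) = 0 := by
        intro ψ
        rw [hF, indicator_of_notMem]
        intro hc
        have h1 := hc.1; have h2 := hc.2.1; have h3 := hc.2.2
        simp only at h1 h2 h3
        exact hθ ⟨by linarith, by linarith⟩
      simp [this]
  rw [s1, s2, s3, s4, s5]

theorem thm (h0 : S_ODE) (h : S_FN) : S_ANA := by
  intro n hn φ hφ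
  obtain ⟨h1, -, h3, h4, -⟩ := id h
  obtain ⟨hint, hfn⟩ := h4 n hn φ hφ
  set s := Finset.HasAntidiagonal.antidiagonal (n - 1) with hs
  have hφ0 : 0 < φ := hφ.1
  have hin : ∀ θ ∈ Ioo (0 : ℝ) φ, θ ∈ Ioo (0 : ℝ) Real.pi := fun θ hθ => ⟨hθ.1, hθ.2.trans hφ.2⟩
  -- the inner integral
  let I : ℕ × ℕ → ℝ → ℝ := fun x θ => ∫ τ in (0 : ℝ)..θ, hm x.1 (θ - τ) * hm x.2 τ
  have hI0 : ∀ x, ∀ θ ∈ Ioo (0 : ℝ) φ, 0 ≤ I x θ := by
    intro x θ hθ
    apply intervalIntegral.integral_nonneg_of_ae_restrict hθ.1.le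
    rw [Filter.EventuallyLE, ae_restrict_iff' measurableSet_Icc]
    have hne : ∀ᵐ τ : ℝ, τ ≠ 0 ∧ τ ≠ θ := by
      have e1 : ∀ᵐ τ : ℝ, τ ≠ 0 := by
        have := measure_singleton (μ := (volume : Measure ℝ)) 0
        exact compl_mem_ae_iff.2 this
      have e2 : ∀ᵐ τ : ℝ, τ ≠ θ := by
        have := measure_singleton (μ := (volume : Measure ℝ)) θ
        exact compl_mem_ae_iff.2 this
      filter_upwards [e1, e2] with τ a b using ⟨a, b⟩
    filter_upwards [hne] with τ hτ hτ2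
    have a1 : 0 < τ := lt_of_le_of_ne hτ2.1 (Ne.symm hτ.1)
    have a2 : τ < θ := lt_of_le_of_ne hτ2.2 hτ.2
    have b := (hin θ hθ).2
    exact mul_nonneg (hm_nonneg h _ ⟨by linarith, by linarith⟩) (hm_nonneg h _ ⟨a1, by linarith⟩)
  have hIc : ∀ x, Continuous (I x) := by
    intro x
    apply intervalIntegral.continuous_parametric_intervalIntegral_of_continuous _ continuous_id
    exact ((hm_cont h0 _).comp (continuous_fst.sub continuous_snd)).mul
      ((hm_cont h0 _).comp continuous_snd)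
  -- step A
  have stepA : ∀ x ∈ s, ∫⁻ α in Ioo (0 : ℝ) φ, ∫⁻ ψ in Ioo (0 : ℝ) (φ - α),
      ENNReal.ofReal ((Real.sin α / Real.sin (α + ψ)) ^ (2 * x.1) * fm x.1 α) *
      ENNReal.ofReal ((Real.sin ψ / Real.sin (α + ψ)) ^ (2 * x.2) * fm x.2 ψ) *
      ENNReal.ofReal (Real.sin α * Real.sin ψ / Real.sin (α + ψ) ^ 3) =
      ∫⁻ θ in Ioo (0 : ℝ) φ, ENNReal.ofReal (I x θ / Real.sin θ ^ (2 * n + 1)) := by
    intro x hx
    rw [hs, Finset.HasAntidiagonal.mem_antidiagonal] at hx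
    let G : ℝ × ℝ → ENNReal := fun z =>
      ENNReal.ofReal (hm x.1 z.1 * hm x.2 z.2 / Real.sin (z.1 + z.2) ^ (2 * n + 1))
    have hG : Measurable G := by
      apply ENNReal.measurable_ofReal.comp
      exact (((hm_cont h0 _).measurable.comp measurable_fst).mul
        ((hm_cont h0 _).measurable.comp measurable_snd)).div
        ((Real.measurable_sin.comp (measurable_fst.add measurable_snd)).pow_const _)
    have e1 : ∫⁻ α in Ioo (0 : ℝ) φ, ∫⁻ ψ in Ioo (0 : ℝ) (φ - α),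
      ENNReal.ofReal ((Real.sin α / Real.sin (α + ψ)) ^ (2 * x.1) * fm x.1 α) *
      ENNReal.ofReal ((Real.sin ψ / Real.sin (α + ψ)) ^ (2 * x.2) * fm x.2 ψ) *
      ENNReal.ofReal (Real.sin α * Real.sin ψ / Real.sin (α + ψ) ^ 3) =
      ∫⁻ α in Ioo (0 : ℝ) φ, ∫⁻ ψ in Ioo (0 : ℝ) (φ - α), G (α, ψ) := by
      refine setLIntegral_congr_fun measurableSet_Ioo fun α hα => ?_
      refine setLIntegral_congr_fun measurableSet_Ioo fun ψ hψ => ?_
      have a1 : α ∈ Ioo (0 : ℝ) Real.pi := hin α hα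
      have a2 : ψ ∈ Ioo (0 : ℝ) Real.pi := ⟨hψ.1, by have := hψ.2; have := hα.1; have := hφ.2; linarith⟩
      have a3 : α + ψ ∈ Ioo (0 : ℝ) Real.pi :=
        ⟨by have := hψ.1; have := hα.1; linarith, by have := hψ.2; have := hφ.2; linarith⟩
      have p1 := Real.sin_pos_of_mem_Ioo a1
      have p2 := Real.sin_pos_of_mem_Ioo a2
      have p3 := Real.sin_pos_of_mem_Ioo a3
      simp only [G]
      have q1 : 0 ≤ (Real.sin α / Real.sin (α + ψ)) ^ (2 * x.1) * fm x.1 α :=
        mul_nonneg (pow_nonneg (div_nonneg p1.le p3.le) _) (fm_nonneg h _ a1)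
      have q2 : 0 ≤ (Real.sin ψ / Real.sin (α + ψ)) ^ (2 * x.2) * fm x.2 ψ :=
        mul_nonneg (pow_nonneg (div_nonneg p2.le p3.le) _) (fm_nonneg h _ a2)
      rw [← ENNReal.ofReal_mul q1, ← ENNReal.ofReal_mul (mul_nonneg q1 q2)]
      congr 1
      unfold hm
      have e : 2 * n + 1 = 2 * x.1 + 2 * x.2 + 3 := by omega
      rw [e, pow_add, pow_add, div_pow, div_pow, pow_succ (Real.sin α), pow_succ (Real.sin ψ)]
      field_simp
      rw [pow_add, pow_add]
      ring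
    rw [e1, cov φ G hG]
    refine setLIntegral_congr_fun measurableSet_Ioo fun θ hθ => ?_
    have a3 := hin θ hθ
    have p3 := Real.sin_pos_of_mem_Ioo a3
    have e2 : ∫⁻ τ in Ioo (0 : ℝ) θ, G (θ - τ, τ) = ∫⁻ τ in Ioo (0 : ℝ) θ,
        ENNReal.ofReal (hm x.1 (θ - τ) * hm x.2 τ / Real.sin θ ^ (2 * n + 1)) := by
      refine setLIntegral_congr_fun measurableSet_Ioo fun τ _ => ?_
      simp only [G]
      rw [sub_add_cancel]
    rw [e2]
    have cont : Continuous fun τ => hm x.1 (θ - τ) * hm x.2 τ / Real.sin θ ^ (2 * n + 1) :=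
      (((hm_cont h0 _).comp (continuous_const.sub continuous_id)).mul (hm_cont h0 _)).div_const _
    have hii : IntegrableOn (fun τ => hm x.1 (θ - τ) * hm x.2 τ / Real.sin θ ^ (2 * n + 1))
        (Ioo (0 : ℝ) θ) :=
      (cont.continuousOn.integrableOn_Icc (a := 0) (b := θ)).mono_set Ioo_subset_Icc_self
    rw [← ofReal_integral_eq_lintegral_ofReal hii]
    · congr 1
      rw [← integral_Ioc_eq_integral_Ioo, ← intervalIntegral.integral_of_le hθ.1.le,
        intervalIntegral.integral_div]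
    · rw [Filter.EventuallyLE, ae_restrict_iff' measurableSet_Ioo]
      refine Filter.Eventually.of_forall fun τ hτ => ?_
      have b := a3.2
      have b1 := hτ.1
      have b2 := hτ.2
      exact div_nonneg (mul_nonneg (hm_nonneg h _ ⟨by linarith, by linarith⟩)
        (hm_nonneg h _ ⟨b1, by linarith⟩)) (pow_nonneg p3.le _)
  rw [Finset.sum_congr rfl stepA, ← lintegral_finsetSum]
  · rw [hfn, intervalIntegral.integral_of_le hφ0.le, integral_Ioc_eq_integral_Ioo,
      ofReal_integral_eq_lintegral_ofReal]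
    · refine setLIntegral_congr_fun measurableSet_Ioo fun θ hθ => ?_
      have p3 := Real.sin_pos_of_mem_Ioo (hin θ hθ)
      rw [← ENNReal.ofReal_sum_of_nonneg]
      · rw [← Finset.sum_div]
      · intro x _
        exact div_nonneg (hI0 x θ hθ) (pow_nonneg p3.le _)
    · have := (intervalIntegrable_iff_integrableOn_Ioo_of_le hφ0.le).1 hint
      exact this
    · rw [Filter.EventuallyLE, ae_restrict_iff' measurableSet_Ioo]
      refine Filter.Eventually.of_forall fun θ hθ => ?_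
      have p3 := Real.sin_pos_of_mem_Ioo (hin θ hθ)
      exact div_nonneg (Finset.sum_nonneg fun x _ => hI0 x θ hθ) (pow_nonneg p3.le _)
  · intro x _
    apply ENNReal.measurable_ofReal.comp
    exact (hIc x).measurable.div (Real.measurable_sin.pow_const _)

end Pool.Agent.Helper68.DISC.ANA
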