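import Pool.Agent.Helper98.DISC.GoalsA

open MeasureTheory Set Filter Topology
open scoped Nat

noncomputable section

namespace Pool.Agent.Helper68.DISC.ZZ

open Pool.Agent.Helper98.DISC

/-! ### the operator `th` -/

theorem th_add (f g : PowerSeries ℂ) : th (f + g) = th f + th g := by
  unfold th; rw [map_add]; ring

theorem th_sub (f g : PowerSeries ℂ) : th (f - g) = th f - th g := by
  unfold th; rw [map_sub]; ring

theorem th_mul (f g : PowerSeries ℂ) : th (f * g) = th f * g + f * th g := by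
  unfold th; rw [Derivation.leibniz]; simp only [smul_eq_mul]; ring

theorem th_C (a : ℂ) : th (PowerSeries.C a) = 0 := by
  unfold th
  rw [PowerSeries.derivative_C]; simp

theorem th_X : th PowerSeries.X = PowerSeries.X := by
  unfold th
  rw [PowerSeries.derivative_X]; simp

theorem th_one : th (1 : PowerSeries ℂ) = 0 := by
  have := th_C 1
  rwa [map_one] at this

theorem coeff_th (f : PowerSeries ℂ) (n : ℕ) :
    PowerSeries.coeff n (th f) = n * PowerSeries.coeff n f := by
  unfold th
  cases n with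
  | zero => simp
  | succ n =>
    rw [PowerSeries.coeff_succ_X_mul, PowerSeries.coeff_derivative]
    push_cast; ring

theorem sk_zero (z : ℂ) : sk 0 z = 1 := by
  unfold sk
  have : prt 0 = {default} := by
    ext lam
    simp only [prt, Finset.mem_filter, Finset.mem_univ, true_and, Finset.mem_singleton]
    constructor
    · intro _; exact Subsingleton.elim _ _
    · intro h
      refine ⟨?_, ?_⟩
      · intro i; exact i.elim0
      · simp
  rw [this, Finset.sum_singleton]
  simp [dl]

theorem S_inv (z : ℂ) : Sz z * (Sz z)⁻¹ = 1 := by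
  apply PowerSeries.mul_inv_cancel
  unfold Sz
  rw [← PowerSeries.coeff_zero_eq_constantCoeff_apply, PowerSeries.coeff_mk, sk_zero]
  exact one_ne_zero

theorem th_S (z : ℂ) : th (Sz z) = yz z * Sz z := by
  unfold yz
  have := S_inv z
  linear_combination (-(th (Sz z))) * this

theorem th_inv (z : ℂ) : th (Sz z)⁻¹ = - (yz z) * (Sz z)⁻¹ := by
  have h := S_inv z
  have h2 : th (Sz z * (Sz z)⁻¹) = 0 := by rw [h, th_one]
  rw [th_mul, th_S] at h2
  have h3 : (Sz z)⁻¹ * (yz z * Sz z * (Sz z)⁻¹ + Sz z * th (Sz z)⁻¹) = 0 := by rw [h2, mul_zero]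
  linear_combination h3 - (th (Sz z)⁻¹ + yz z * (Sz z)⁻¹) * h

/-- `R = θ y` -/
def Rz (z : ℂ) : PowerSeries ℂ := th (yz z)

theorem R_eq (h1 : S_T1) {z : ℂ} (hz : ∀ m : ℤ, z ≠ m) :
    Rz z = PowerSeries.C z⁻¹ * PowerSeries.X * Sz (z + 1) * Sz (z - 1) * (Sz z)⁻¹ ^ 2 := by
  have h := h1 z hz
  have hi := S_inv z
  have h2 : th (th (Sz z)) = Rz z * Sz z + yz z * (yz z * Sz z) := by
    rw [th_S, th_mul, th_S]; rfl
  rw [h2, th_S] at h
  have h3 : Rz z * (Sz z) ^ 2 = PowerSeries.C z⁻¹ * PowerSeries.X * Sz (z + 1) * Sz (z - 1) := by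
    rw [← h]; ring
  rw [← h3]
  linear_combination (-(Rz z) * (Sz z * (Sz z)⁻¹ + 1)) * hi

theorem th_R (h1 : S_T1) {z : ℂ} (hz : ∀ m : ℤ, z ≠ m) :
    th (Rz z) = Rz z * (1 + yz (z + 1) + yz (z - 1) - 2 * yz z) := by
  rw [R_eq h1 hz]
  simp only [pow_two, th_mul, th_inv, th_S, th_C, th_X]
  ring

theorem R_zero (z : ℂ) : PowerSeries.coeff 0 (Rz z) = 0 := by
  unfold Rz; rw [coeff_th]; simp

theorem y_zero (z : ℂ) : PowerSeries.coeff 0 (yz z) = 0 := by
  unfold yz
  rw [PowerSeries.coeff_mul]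
  simp [coeff_th]

theorem S_zero (z : ℂ) : PowerSeries.constantCoeff (Sz z) = 1 := by
  unfold Sz
  rw [← PowerSeries.coeff_zero_eq_constantCoeff_apply, PowerSeries.coeff_mk, sk_zero]

theorem R_one (h1 : S_T1) {z : ℂ} (hz : ∀ m : ℤ, z ≠ m) : PowerSeries.coeff 1 (Rz z) = z⁻¹ := by
  rw [R_eq h1 hz]
  have : PowerSeries.C z⁻¹ * PowerSeries.X * Sz (z + 1) * Sz (z - 1) * (Sz z)⁻¹ ^ 2 =
    PowerSeries.X * (PowerSeries.C z⁻¹ * Sz (z + 1) * Sz (z - 1) * (Sz z)⁻¹ ^ 2) := by ring
  rw [this, PowerSeries.coeff_succ_X_mul]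
  rw [PowerSeries.coeff_zero_eq_constantCoeff_apply]
  simp [S_zero, PowerSeries.constantCoeff_inv]

def Zz (z : ℂ) : PowerSeries ℂ :=
  th (yz (z + 1) + yz z) + (yz (z + 1) - yz z) ^ 2 + PowerSeries.C z * yz (z + 1) -
    PowerSeries.C (z + 1) * yz z

def Yz (z : ℂ) : PowerSeries ℂ := Rz z * (PowerSeries.C z + yz (z + 1) - yz (z - 1))

theorem shift {z : ℂ} (hz : ∀ m : ℤ, z ≠ m) : ∀ m : ℤ, z + 1 ≠ m := by
  intro m h
  apply hz (m - 1)
  push_cast
  linear_combination h

theorem shift' {z : ℂ} (hz : ∀ m : ℤ, z ≠ m) : ∀ m : ℤ, z - 1 ≠ m := by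
  intro m h
  apply hz (m + 1)
  push_cast
  linear_combination h

theorem th_Z (h1 : S_T1) {z : ℂ} (hz : ∀ m : ℤ, z ≠ m) :
    th (Zz z) = Yz (z + 1) - Yz z := by
  unfold Zz Yz
  have e1 : th (yz (z + 1) + yz z) = Rz (z + 1) + Rz z := by rw [th_add]; rfl
  rw [e1]
  have a := th_R h1 hz
  have b := th_R h1 (shift hz)
  have c : z + 1 - 1 = z := by ring
  rw [c] at b
  simp only [pow_two, th_add, th_sub, th_mul, th_C, a, b, c]
  have r0 : th (yz z) = Rz z := rfl
  have r1 : th (yz (z + 1)) = Rz (z + 1) := rfl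
  rw [r0, r1]
  have hC : (PowerSeries.C (z + 1) : PowerSeries ℂ) = PowerSeries.C z + 1 := by rw [map_add, map_one]
  rw [hC]
  ring

theorem th_Y (h1 : S_T1) {z : ℂ} (hz : ∀ m : ℤ, z ≠ m) :
    th (Yz z) - Yz z = Rz z * (Zz z - Zz (z - 1)) := by
  unfold Zz Yz
  have c : z - 1 + 1 = z := by ring
  have a := th_R h1 hz
  simp only [pow_two, th_add, th_sub, th_mul, th_C, a, c]
  have r0 : th (yz z) = Rz z := rfl
  have r1 : th (yz (z + 1)) = Rz (z + 1) := rfl
  have r2 : th (yz (z - 1)) = Rz (z - 1) := rfl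
  rw [r0, r1, r2]
  have hC : (PowerSeries.C (z + 1) : PowerSeries ℂ) = PowerSeries.C z + 1 := by rw [map_add, map_one]
  have hC' : (PowerSeries.C (z - 1) : PowerSeries ℂ) = PowerSeries.C z - 1 := by rw [map_sub, map_one]
  rw [hC, hC']
  ring

theorem main (h1 : S_T1) (n : ℕ) : ∀ z : ℂ, (∀ m : ℤ, z ≠ m) →
    PowerSeries.coeff n (Zz z) = 0 ∧ PowerSeries.coeff n (Yz z) = if n = 1 then 1 else 0 := by
  induction n using Nat.strong_induction_on with
  | _ n ih =>
    have hY : ∀ z : ℂ, (∀ m : ℤ, z ≠ m) → PowerSeries.coeff n (Yz z) = if n = 1 then 1 else 0 := by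
      intro z hz
      rcases Nat.lt_or_ge n 2 with hn | hn
      · interval_cases n
        · rw [if_neg (by norm_num)]
          unfold Yz
          rw [PowerSeries.coeff_mul]
          simp [R_zero]
        · rw [if_pos rfl]
          unfold Yz
          rw [PowerSeries.coeff_mul]
          have : Finset.HasAntidiagonal.antidiagonal 1 = {((0 : ℕ), (1 : ℕ)), (1, 0)} := by decide
          rw [this, Finset.sum_pair (by simp)]
          simp only [R_zero, R_one h1 hz, zero_mul, zero_add, map_add, map_sub, y_zero,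
            PowerSeries.coeff_zero_C]
          rw [add_zero, sub_zero]
          refine inv_mul_cancel₀ ?_
          have := hz 0
          simpa using this
      · rw [if_neg (by omega)]
        have h := congrArg (PowerSeries.coeff n) (th_Y h1 hz)
        rw [map_sub, coeff_th] at h
        have h0 : PowerSeries.coeff n (Rz z * (Zz z - Zz (z - 1))) = 0 := by
          rw [PowerSeries.coeff_mul]
          apply Finset.sum_eq_zero
          intro x hx
          rw [Finset.HasAntidiagonal.mem_antidiagonal] at hx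
          rcases Nat.eq_zero_or_pos x.1 with h0 | h0
          · rw [h0, R_zero, zero_mul]
          · have hlt : x.2 < n := by omega
            rw [map_sub, (ih x.2 hlt z hz).1, (ih x.2 hlt (z - 1) (shift' hz)).1]
            simp
        rw [h0] at h
        have h3 : ((n : ℂ) - 1) * PowerSeries.coeff n (Yz z) = 0 := by linear_combination h
        rcases mul_eq_zero.1 h3 with h4 | h4
        · exfalso
          have : (n : ℂ) = 1 := by linear_combination h4
          have : n = 1 := by exact_mod_cast this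
          omega
        · exact h4
    intro z hz
    refine ⟨?_, hY z hz⟩
    rcases Nat.eq_zero_or_pos n with hn | hn
    · subst hn
      unfold Zz
      simp [PowerSeries.coeff_zero_eq_constantCoeff_apply, pow_two]
      have y0 : ∀ w, PowerSeries.constantCoeff (yz w) = 0 := fun w => by
        rw [← PowerSeries.coeff_zero_eq_constantCoeff_apply]; exact y_zero w
      have t0 : ∀ f, PowerSeries.constantCoeff (th f) = 0 := fun f => by
        rw [← PowerSeries.coeff_zero_eq_constantCoeff_apply, coeff_th]; simp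
      rw [t0, y0, y0]; ring
    · have h := congrArg (PowerSeries.coeff n) (th_Z h1 hz)
      rw [map_sub, coeff_th, hY z hz, hY (z + 1) (shift hz), sub_self] at h
      rcases mul_eq_zero.1 h with h4 | h4
      · exfalso
        have : n = 0 := by exact_mod_cast h4
        omega
      · exact h4

theorem thm (h1 : S_T1) : S_ZZ := by
  intro z hz
  ext n
  have := (main h1 n z hz).1
  unfold Zz at this
  rw [this]; simp

end Pool.Agent.Helper68.DISC.ZZ
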